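import Mathlib
import Pool.Agent.Helper17.SumsetHalf.Cover
import Pool.Agent.Helper17.SumsetHalf.Contract

namespace Pool.Agent.Results.MP_ba46be_co.AllDensities

open Finset Pointwise Pool.Agent.Helper17.SumsetHalf

/-- Let `A ⊆ F₂ⁿ` be nonempty of density at least `α`, where `α ≤ 1/2`, and let
`p = (1 - 2α) / (2 - 2α)`. If `p^k * ∑_{j ≤ k} C(n, j) < 1`, then the sumset `A + A` contains a
linear subspace of codimension at most `k`. -/
theorem result (n k : ℕ) (A : Finset (Fin n → ZMod 2)) (hne : A.Nonempty) (α : ℝ) (hα : α ≤ 1 / 2)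
    (hA : α * (2 : ℝ) ^ n ≤ (A.card : ℝ))
    (hk : ((1 - 2 * α) / (2 - 2 * α)) ^ k * ∑ j ∈ range (k + 1), (n.choose j : ℝ) < 1) :
    ∃ V : Submodule (ZMod 2) (Fin n → ZMod 2),
      (∀ v ∈ V, v ∈ A + A) ∧ n ≤ Module.finrank (ZMod 2) V + k := by
  classical
  have hN : (0 : ℝ) < 2 ^ n := by positivity
  set p : ℝ := (1 - 2 * α) / (2 - 2 * α) with hp
  have hp0 : 0 ≤ p := div_nonneg (by linarith) (by linarith)
  let D : Finset (Fin n → ZMod 2) := univ \ (A + A)
  have hcov : Cov D k := by
    apply cov_of_greedy D hp0 _ k hk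
    intro E hED hE
    by_contra hcon
    push Not at hcon
    have hAE : ∀ a ∈ A, ∀ d ∈ E, a + d ∉ A := by
      intro a ha d hd had
      have h1 := hED hd
      simp only [D, mem_sdiff, mem_univ, true_and] at h1
      apply h1
      have : d = a + (a + d) := by rw [← add_assoc, add_self_two, zero_add]
      rw [this]
      exact add_mem_add ha had
    let f : (Fin n → ZMod 2) → ℝ := fun x => if x ∈ A then 1 else 0
    let F : (Fin n → ZMod 2) → ℝ := fun r => ∑ x, f x * chi r x
    have hf : ∑ x, f x = A.card := by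
      simp only [f]
      rw [← sum_filter, filter_univ_mem]
      simp
    have hpar : ∑ r, F r ^ 2 = 2 ^ n * A.card := by
      have h7 := parseval f 0
      have h8 : ∀ r : Fin n → ZMod 2, chi r 0 = 1 := by intro r; simp [chi]
      simp only [h8, mul_one, add_zero] at h7
      rw [h7, ← hf]
      congr 1
      refine sum_congr rfl fun x _ => ?_
      simp only [f]
      split_ifs <;> norm_num
    have hd0 : ∀ d ∈ E, ∑ r, F r ^ 2 * chi r d = 0 := by
      intro d hd
      rw [parseval f d]
      have : ∀ x, f x * f (x + d) = 0 := by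
        intro x
        by_cases h : x ∈ A
        · simp [f, hAE x h d hd]
        · simp [f, h]
      simp [this]
    let N : (Fin n → ZMod 2) → ℝ := fun r => ((E.filter fun d => r ⬝ᵥ d = 0).card : ℝ)
    have hsumchi : ∀ r, ∑ d ∈ E, chi r d = 2 * N r - E.card := by
      intro r
      have h5 : ∀ d, chi r d = 2 * (if r ⬝ᵥ d = 0 then 1 else 0) - 1 := by
        intro d
        unfold chi
        split_ifs <;> norm_num
      simp only [h5, sum_sub_distrib, ← mul_sum, N]
      rw [← sum_filter]
      simp
    have htot : ∑ r, F r ^ 2 * (2 * N r - E.card) = 0 := by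
      simp only [← hsumchi, mul_sum]
      rw [sum_comm]
      exact sum_eq_zero hd0
    have hF0 : F 0 = A.card := by
      simp only [F]
      rw [← hf]
      refine sum_congr rfl fun x _ => ?_
      simp [chi]
    have hN0 : N 0 = E.card := by
      simp [N]
    -- split off the trivial character
    have hE0 : (0 : ℝ) < E.card := by exact_mod_cast hE.card_pos
    have hA0 : (0 : ℝ) < A.card := by exact_mod_cast hne.card_pos
    have h1 : ∑ r ∈ univ.erase (0 : Fin n → ZMod 2), F r ^ 2 * (2 * N r - E.card) =
        - (A.card : ℝ) ^ 2 * E.card := by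
      rw [← add_sum_erase univ _ (mem_univ (0 : Fin n → ZMod 2)), hF0, hN0] at htot
      linarith
    have h2 : ∑ r ∈ univ.erase (0 : Fin n → ZMod 2), F r ^ 2 =
        2 ^ n * A.card - (A.card : ℝ) ^ 2 := by
      rw [← add_sum_erase univ _ (mem_univ (0 : Fin n → ZMod 2)), hF0] at hpar
      linarith
    have h3 : (2 * p - 1) * E.card * (2 ^ n * A.card - (A.card : ℝ) ^ 2) ≤
        - (A.card : ℝ) ^ 2 * E.card := by
      rw [← h1, ← h2, mul_sum]
      refine sum_le_sum fun r _ => ?_
      rw [mul_comm]
      apply mul_le_mul_of_nonneg_left _ (sq_nonneg _)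
      have := hcon r
      simp only [N]
      linarith
    -- strictness
    have h4 : ∃ r ∈ univ.erase (0 : Fin n → ZMod 2), F r ^ 2 ≠ 0 := by
      by_contra hcon'
      push Not at hcon'
      rw [sum_eq_zero hcon'] at h2
      rw [sum_eq_zero fun r hr => by rw [hcon' r hr, zero_mul]] at h1
      have : 0 < (A.card : ℝ) ^ 2 * E.card := by positivity
      linarith
    have h3' : (2 * p - 1) * E.card * (2 ^ n * A.card - (A.card : ℝ) ^ 2) <
        - (A.card : ℝ) ^ 2 * E.card := by
      rw [← h1, ← h2, mul_sum]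
      obtain ⟨r, hr, hr0⟩ := h4
      refine sum_lt_sum (fun r _ => ?_) ⟨r, hr, ?_⟩
      · rw [mul_comm]
        apply mul_le_mul_of_nonneg_left _ (sq_nonneg _)
        have := hcon r
        simp only [N]
        linarith
      · rw [mul_comm]
        apply mul_lt_mul_of_pos_left _ (lt_of_le_of_ne (sq_nonneg _) (Ne.symm hr0))
        have := hcon r
        simp only [N]
        linarith
    have h5 : (2 * p - 1) * (2 ^ n - (A.card : ℝ)) < - (A.card : ℝ) := by
      have : (A.card * E.card : ℝ) * ((2 * p - 1) * (2 ^ n - (A.card : ℝ))) <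
          (A.card * E.card : ℝ) * (- (A.card : ℝ)) := by
        calc _ = (2 * p - 1) * E.card * (2 ^ n * A.card - (A.card : ℝ) ^ 2) := by ring
          _ < - (A.card : ℝ) ^ 2 * E.card := h3'
          _ = _ := by ring
      exact lt_of_mul_lt_mul_left this (by positivity)
    have h6 : 2 * p - 1 = -(α / (1 - α)) := by
      rw [hp]
      have : (1 : ℝ) - α ≠ 0 := by linarith
      have h' : (2 : ℝ) - 2 * α ≠ 0 := by linarith
      field_simp
      ring
    have h1α : 0 < 1 - α := by linarith
    rw [h6] at h5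
    have h7 : (1 - α) * (A.card : ℝ) < α * (2 ^ n - (A.card : ℝ)) := by
      have h8 := mul_lt_mul_of_pos_left h5 h1α
      have h9 : (1 - α) * (-(α / (1 - α)) * (2 ^ n - (A.card : ℝ))) =
          -(α * (2 ^ n - (A.card : ℝ))) := by
        field_simp
      rw [h9] at h8
      linarith
    linarith
  obtain ⟨V, hV, hV'⟩ := exists_subspace hcov
  refine ⟨V, fun v hv => ?_, hV'⟩
  by_contra hcon
  exact hV v hv (by simp only [D, mem_sdiff, mem_univ, true_and]; exact hcon)

end Pool.Agent.Results.MP_ba46be_co.AllDensities
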