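import Mathlib
import Pool.Agent.Helper17.SumsetHalf.Cover
import Pool.Agent.Helper17.SumsetHalf.Contract

namespace Pool.Agent.Results.MP_ba46be_co.NearHalf

open Finset Pointwise Pool.Agent.Helper17.SumsetHalf

/-- the numerical part of the argument -/
private theorem numeric {a lam : ℝ} (h0 : 0 < lam) (h1 : lam ≤ 1 / 3)
    (ha : 1 / 2 - √(lam / 2700) ≤ a) (ha2 : a ≤ 1 / 2)
    (h : ∀ m : ℕ, 1 ≤ m → a ^ 2 ≤ (1 - lam) ^ m * a + (4 * √m + 3) * (1 / 2 - a)) : False := by
  set δ : ℝ := √(lam / 2700) with hδ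
  have hδ0 : 0 < δ := by rw [hδ]; positivity
  have hδ2 : δ ^ 2 = lam / 2700 := by rw [hδ, Real.sq_sqrt (by positivity)]
  have hlam : lam = 2700 * δ ^ 2 := by rw [hδ2]; ring
  have hδ3 : δ ≤ 1 / 90 := by
    rw [hδ, Real.sqrt_le_left (by norm_num)]
    norm_num
    linarith
  have hx : (0.0009 : ℝ) / δ ^ 2 ≥ 7 := by
    rw [ge_iff_le, le_div_iff₀ (by positivity)]
    nlinarith
  set m : ℕ := ⌊(0.0009 : ℝ) / δ ^ 2⌋₊ with hm
  have hm1 : (m : ℝ) ≤ 0.0009 / δ ^ 2 := Nat.floor_le (by positivity)
  have hm2 : 0.0009 / δ ^ 2 - 1 < (m : ℝ) := by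
    have := Nat.lt_floor_add_one ((0.0009 : ℝ) / δ ^ 2)
    rw [hm]; linarith
  have hm3 : 1 ≤ m := by
    have : (1 : ℝ) < m := by linarith
    exact_mod_cast this.le
  have hsq : √(m : ℝ) ≤ 0.03 / δ := by
    apply Real.sqrt_le_iff.2
    refine ⟨by positivity, hm1.trans (le_of_eq ?_)⟩
    rw [div_pow]
    norm_num
  have hlm : 2 ≤ lam * m := by
    have h2 : lam * (0.0009 / δ ^ 2 - 1) = 2.43 - lam := by
      rw [hlam]
      field_simp
      ring
    have h3 : lam * (0.0009 / δ ^ 2 - 1) ≤ lam * m := mul_le_mul_of_nonneg_left hm2.le h0.le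
    rw [h2] at h3
    linarith
  have hexp : (1 - lam) ^ m ≤ 0.14 := by
    have h2 : (1 - lam) ^ m ≤ Real.exp (-2) := by
      calc (1 - lam) ^ m ≤ (Real.exp (-lam)) ^ m := by
            apply pow_le_pow_left₀ (by linarith)
            exact Real.one_sub_le_exp_neg lam
        _ = Real.exp (-(lam * m)) := by
            rw [← Real.exp_nat_mul]
            congr 1
            ring
        _ ≤ Real.exp (-2) := Real.exp_le_exp.2 (by linarith)
    have h3 : Real.exp (-2) ≤ 0.14 := by
      have h4 : Real.exp (-2) = (Real.exp (-1)) ^ 2 := by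
        rw [← Real.exp_nat_mul]
        norm_num
      have h5 : Real.exp (-1) < 0.3678794412 := Real.exp_neg_one_lt_d9
      have h6 : 0 < Real.exp (-1) := Real.exp_pos _
      rw [h4]
      nlinarith
    exact h2.trans h3
  have hmain := h m hm3
  have ha0 : 0 ≤ a := by linarith
  have hA : (1 - lam) ^ m * a ≤ 0.14 * (1 / 2) := by
    apply mul_le_mul hexp ha2 ha0 (by norm_num)
  have hB : (4 * √(m : ℝ) + 3) * (1 / 2 - a) ≤ 0.12 + 3 * δ := by
    have h2 : (4 * √(m : ℝ) + 3) * (1 / 2 - a) ≤ (4 * (0.03 / δ) + 3) * δ := by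
      apply mul_le_mul _ (by linarith) (by linarith) (by positivity)
      linarith
    refine h2.trans (le_of_eq ?_)
    field_simp
    ring
  have hC : 1 / 4 - δ ≤ a ^ 2 := by nlinarith
  norm_num at hA hB hC
  linarith

/-- For every nonempty set `A ⊆ F₂ⁿ` of density at least `1/2 - δ`, the sumset `A + A` contains a
linear subspace of codimension at most `1 + 8100 δ² n`. -/
theorem result (n : ℕ) (A : Finset (Fin n → ZMod 2)) (hne : A.Nonempty) (δ : ℝ)
    (hA : (1 / 2 - δ) * (2 : ℝ) ^ n ≤ (A.card : ℝ)) :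
    ∃ V : Submodule (ZMod 2) (Fin n → ZMod 2),
      (∀ v ∈ V, v ∈ A + A) ∧
      (n : ℝ) - (Module.finrank (ZMod 2) V : ℝ) ≤ 1 + 8100 * δ ^ 2 * n := by
  classical
  have hN : (0 : ℝ) < 2 ^ n := by positivity
  set k : ℕ := ⌊8100 * δ ^ 2 * n⌋₊ + 1 with hk
  have hk1 : 8100 * δ ^ 2 * n < k := by
    rw [hk]; push_cast
    exact Nat.lt_floor_add_one _
  have hk2 : (k : ℝ) ≤ 1 + 8100 * δ ^ 2 * n := by
    have := Nat.floor_le (show 0 ≤ 8100 * δ ^ 2 * n by positivity)
    rw [hk]; push_cast
    linarith
  by_cases hkn : n ≤ k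
  · -- the zero subspace
    refine ⟨⊥, fun v hv => ?_, ?_⟩
    · rw [Submodule.mem_bot] at hv
      obtain ⟨a, ha⟩ := hne
      rw [hv, ← add_self_two a]
      exact add_mem_add ha ha
    · rw [finrank_bot, Nat.cast_zero, sub_zero]
      have : (n : ℝ) ≤ k := by exact_mod_cast hkn
      exact this.trans hk2
  · push Not at hkn
    let D : Finset (Fin n → ZMod 2) := univ \ (A + A)
    have hn0 : (0 : ℝ) < n := by
      have : 0 < n := by omega
      exact_mod_cast this
    have hcov : Cov D k := by
      set lam : ℝ := (2700 * δ ^ 2 + k / (3 * n)) / 2 with hlam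
      have hgap : 2700 * δ ^ 2 < k / (3 * n) := by
        rw [lt_div_iff₀ (by positivity)]
        linarith
      have hl0 : 0 < lam := by
        rw [hlam]
        have : (0 : ℝ) ≤ 2700 * δ ^ 2 := by positivity
        linarith
      have hl1 : 2700 * δ ^ 2 ≤ lam := by rw [hlam]; linarith
      have hl2 : lam < k / (3 * n) := by rw [hlam]; linarith
      have hl3 : 3 * lam * n < k := by
        rw [lt_div_iff₀ (by positivity)] at hl2
        linarith
      have hl4 : lam ≤ 1 / 3 := by
        have : (k : ℝ) < n := by exact_mod_cast hkn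
        have h1 : lam * (3 * n) ≤ (1 / 3) * (3 * n) := by linarith
        exact le_of_mul_le_mul_right h1 (by positivity)
      apply cov_of_greedy D hl0.le _ k (choose_sum_lt (by omega) hkn.le hl0.le hl3)
      intro E hED hE
      by_contra hcon
      push Not at hcon
      have hAE : ∀ a ∈ A, ∀ d ∈ E, a + d ∉ A := by
        intro a ha d hd had
        have h1 := hED hd
        simp only [D, mem_sdiff, mem_univ, true_and] at h1
        apply h1
        have : d = a + (a + d) := by rw [← add_assoc, add_self_two, zero_add]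
        rw [this]
        exact add_mem_add ha had
      have hkey := fun (m : ℕ) (hm : 1 ≤ m) =>
        key A E hE hAE (by linarith : lam ≤ 1) (fun r => (hcon r).le) hm
      have ha2 : (A.card : ℝ) / 2 ^ n ≤ 1 / 2 := by
        obtain ⟨d, hd⟩ := hE
        have hinj : Function.Injective fun a : Fin n → ZMod 2 => a + d := add_left_injective d
        have hdis : Disjoint A (A.image fun a => a + d) := by
          rw [disjoint_left]
          intro x hx hx'
          rw [mem_image] at hx'
          obtain ⟨a, ha, rfl⟩ := hx'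
          exact hAE a ha d hd hx
        have h1 := card_le_univ (A ∪ A.image fun a => a + d)
        rw [card_union_of_disjoint hdis, card_image_of_injective _ hinj, Fintype.card_fun,
          ZMod.card, Fintype.card_fin] at h1
        have h2 : (A.card : ℝ) + A.card ≤ 2 ^ n := by exact_mod_cast h1
        rw [div_le_iff₀ hN]
        linarith
      refine numeric hl0 hl4 ?_ ha2 hkey
      have h1 : δ ≤ √(lam / 2700) := by
        apply Real.le_sqrt_of_sq_le
        rw [le_div_iff₀ (by norm_num)]
        linarith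
      have h2 : 1 / 2 - δ ≤ (A.card : ℝ) / 2 ^ n := by
        rw [le_div_iff₀ hN]
        exact hA
      linarith
    obtain ⟨V, hV, hV'⟩ := exists_subspace hcov
    refine ⟨V, fun v hv => ?_, ?_⟩
    · by_contra hcon
      exact hV v hv (by simp only [D, mem_sdiff, mem_univ, true_and]; exact hcon)
    · have : (n : ℝ) ≤ (Module.finrank (ZMod 2) V : ℝ) + k := by exact_mod_cast hV'
      linarith

end Pool.Agent.Results.MP_ba46be_co.NearHalf
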